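import Pool.Agent.Helper21.EM.Stmts4
import Pool.Agent.Helper84.D2.TNT
import Pool.Agent.Helper72.D2.PSD

/-!
# Project EM, row BTN: the block version of TNT
-/

set_option autoImplicit false

namespace EH

namespace H1B

open Matrix MvPolynomial Pool.Agent.Helper82.AHS Pool.Agent.Helper21.TH.H72 MT

section der

variable {K : Type} [Field K] {A : Type} [CommRing A] [Algebra K A] {r : ℕ}

theorem D_pw (D : Derivation K A A) (G N : Matrix (Fin r) (Fin r) A)
    (h : ∀ i j, D (G i j) = (G * N) i j) (m : ℕ) (i j : Fin m → Fin r) :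
    D (pw m G i j) = (pw m G * dr m N) i j := by
  have h1 : pw m G * dr m N = ∑ a, pwf (Function.update (fun _ : Fin m => G) a (G * N)) := by
    unfold dr pw
    rw [Finset.mul_sum]
    refine Finset.sum_congr rfl fun a _ => ?_
    rw [pwf_mul]
    congr 1
    funext b
    by_cases hb : b = a
    · subst hb; simp
    · simp [Function.update_of_ne hb]
  rw [h1, Matrix.sum_apply]
  have h2 : pw m G i j = ∏ a, G (i a) (j a) := rfl
  rw [h2, Pool.Agent.Helper84.D2.deriv_prod]
  refine Finset.sum_congr rfl fun a _ => ?_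
  rw [pwf_update, h, mul_comm]

theorem D_const_mul (D : Derivation K A A) {ι κ μ : Type} [Fintype κ] (P : Matrix ι κ A)
    (hP : ∀ i j, D (P i j) = 0) (Z : Matrix κ μ A) (i : ι) (j : μ) :
    D ((P * Z) i j) = (P * Z.map D) i j := by
  rw [Matrix.mul_apply, Matrix.mul_apply, map_sum]
  refine Finset.sum_congr rfl fun x _ => ?_
  rw [Derivation.leibniz, hP, smul_zero, add_zero, smul_eq_mul, Matrix.map_apply]

theorem D_mul_const (D : Derivation K A A) {ι κ μ : Type} [Fintype κ] (Z : Matrix ι κ A)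
    (Q : Matrix κ μ A) (hQ : ∀ i j, D (Q i j) = 0) (i : ι) (j : μ) :
    D ((Z * Q) i j) = (Z.map D * Q) i j := by
  rw [Matrix.mul_apply, Matrix.mul_apply, map_sum]
  refine Finset.sum_congr rfl fun x _ => ?_
  rw [Derivation.leibniz, hQ, smul_zero, zero_add, smul_eq_mul, Matrix.map_apply, mul_comm]

end der

section blk

variable {R : Type} [CommRing R] {r r' : ℕ} {U : Matrix (Fin r) (Fin r') R}
  {V : Matrix (Fin r') (Fin r) R}

/-- the matrix which acts as `x` on the block -/
def GG (U : Matrix (Fin r) (Fin r') R) (V : Matrix (Fin r') (Fin r) R)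
    (x : Matrix (Fin r') (Fin r') R) : Matrix (Fin r) (Fin r) R := U * x * V + (1 - U * V)

theorem V_mul_c (h : V * U = 1) : V * (1 - U * V) = 0 := by
  rw [Matrix.mul_sub, Matrix.mul_one, ← Matrix.mul_assoc, h, Matrix.one_mul, sub_self]

theorem c_mul_U (h : V * U = 1) : (1 - U * V) * U = 0 := by
  rw [Matrix.sub_mul, Matrix.one_mul, Matrix.mul_assoc, h, Matrix.mul_one, sub_self]

theorem c_mul_c (h : V * U = 1) : (1 - U * V) * (1 - U * V) = 1 - U * V := by
  rw [Matrix.mul_sub (1 - U * V), Matrix.mul_one, ← Matrix.mul_assoc, c_mul_U h, Matrix.zero_mul,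
    sub_zero]

theorem GG_mul_U (h : V * U = 1) (x y : Matrix (Fin r') (Fin r') R) :
    GG U V x * (U * y * V) = U * (x * y) * V := by
  unfold GG
  rw [Matrix.add_mul]
  have h1 : U * x * V * (U * y * V) = U * (x * y) * V := by
    calc U * x * V * (U * y * V) = U * x * (V * U) * y * V := by simp only [Matrix.mul_assoc]
      _ = U * (x * y) * V := by rw [h, Matrix.mul_one]; simp only [Matrix.mul_assoc]
  have h2 : (1 - U * V) * (U * y * V) = 0 := by
    calc (1 - U * V) * (U * y * V) = (1 - U * V) * U * (y * V) := by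
          simp only [Matrix.mul_assoc]
      _ = 0 := by rw [c_mul_U h, Matrix.zero_mul]
  rw [h1, h2, add_zero]

theorem U_mul_GG (h : V * U = 1) (x y : Matrix (Fin r') (Fin r') R) :
    (U * y * V) * GG U V x = U * (y * x) * V := by
  unfold GG
  rw [Matrix.mul_add]
  have h1 : U * y * V * (U * x * V) = U * (y * x) * V := by
    calc U * y * V * (U * x * V) = U * y * (V * U) * x * V := by simp only [Matrix.mul_assoc]
      _ = U * (y * x) * V := by rw [h, Matrix.mul_one]; simp only [Matrix.mul_assoc]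
  have h2 : (U * y * V) * (1 - U * V) = 0 := by
    rw [Matrix.mul_assoc, V_mul_c h, Matrix.mul_zero]
  rw [h1, h2, add_zero]

theorem GG_mul_c (h : V * U = 1) (x : Matrix (Fin r') (Fin r') R) :
    GG U V x * (1 - U * V) = 1 - U * V := by
  unfold GG
  rw [Matrix.add_mul, Matrix.mul_assoc, V_mul_c h, Matrix.mul_zero, zero_add, c_mul_c h]

theorem c_mul_GG (h : V * U = 1) (x : Matrix (Fin r') (Fin r') R) :
    (1 - U * V) * GG U V x = 1 - U * V := by
  unfold GG
  rw [Matrix.mul_add, c_mul_c h]
  have h2 : (1 - U * V) * (U * x * V) = 0 := by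
    calc (1 - U * V) * (U * x * V) = (1 - U * V) * U * (x * V) := by
          simp only [Matrix.mul_assoc]
      _ = 0 := by rw [c_mul_U h, Matrix.zero_mul]
  rw [h2, zero_add]

theorem GG_mul (h : V * U = 1) (x y : Matrix (Fin r') (Fin r') R) :
    GG U V x * GG U V y = GG U V (x * y) := by
  conv_lhs => rw [show GG U V y = U * y * V + (1 - U * V) from rfl]
  rw [Matrix.mul_add, GG_mul_U h, GG_mul_c h]
  rfl

theorem GG_one : GG U V 1 = 1 := by
  unfold GG
  rw [Matrix.mul_one, add_sub_cancel]

theorem GG_map {S : Type} [CommRing S] (φ : R →+* S) (x : Matrix (Fin r') (Fin r') R) :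
    (GG U V x).map φ = GG (U.map φ) (V.map φ) (x.map φ) := by
  unfold GG
  rw [Matrix.map_add _ (map_add φ), Matrix.map_mul, Matrix.map_mul,
    Matrix.map_sub _ (map_sub φ), Matrix.map_mul, Matrix.map_one φ (map_zero φ) (map_one φ)]

end blk

section det1

variable {K : Type} [Field K] {r m n r' : ℕ}

/-- the generic matrix -/
noncomputable def Xm (K : Type) [Field K] (r' : ℕ) :
    Matrix (Fin r') (Fin r') (MvPolynomial (Fin r' × Fin r') K) :=
  Matrix.of fun i j => X (i, j)

theorem ldv_C (M : Matrix (Fin r') (Fin r') K) (c : K) :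
    ldv M (C c : MvPolynomial (Fin r' × Fin r') K) = 0 := (ldv M).map_algebraMap c

theorem ldv_Xm (M : Matrix (Fin r') (Fin r') K) :
    (Xm K r').map (ldv M) = Xm K r' * M.map (C : K →+* MvPolynomial (Fin r' × Fin r') K) := by
  ext1 i j
  rw [Matrix.map_apply, Matrix.mul_apply]
  unfold Xm ldv
  rw [Matrix.of_apply, mkDerivation_X]
  rfl

/-- the generic matrix of the block -/
noncomputable def GX (U : Matrix (Fin r) (Fin r') K) (V : Matrix (Fin r') (Fin r) K) :
    Matrix (Fin r) (Fin r) (MvPolynomial (Fin r' × Fin r') K) :=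
  GG (U.map (C : K →+* MvPolynomial (Fin r' × Fin r') K))
    (V.map (C : K →+* MvPolynomial (Fin r' × Fin r') K)) (Xm K r')

theorem map_VU {U : Matrix (Fin r) (Fin r') K} {V : Matrix (Fin r') (Fin r) K} (h : V * U = 1) :
    V.map (C : K →+* MvPolynomial (Fin r' × Fin r') K) *
      U.map (C : K →+* MvPolynomial (Fin r' × Fin r') K) = 1 := by
  rw [← Matrix.map_mul, h, Matrix.map_one _ (map_zero _) (map_one _)]

theorem ldv_GX {U : Matrix (Fin r) (Fin r') K} {V : Matrix (Fin r') (Fin r) K} (h : V * U = 1)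
    (M : Matrix (Fin r') (Fin r') K) (i j : Fin r) :
    ldv M (GX U V i j) =
      (GX U V * (U * M * V).map (C : K →+* MvPolynomial (Fin r' × Fin r') K)) i j := by
  have h1 : GX U V * (U * M * V).map (C : K →+* MvPolynomial (Fin r' × Fin r') K) =
      U.map (C : K →+* MvPolynomial (Fin r' × Fin r') K) *
        (Xm K r' * M.map (C : K →+* MvPolynomial (Fin r' × Fin r') K)) *
          V.map (C : K →+* MvPolynomial (Fin r' × Fin r') K) := by
    rw [Matrix.map_mul, Matrix.map_mul]
    exact GG_mul_U (map_VU h) _ _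
  rw [h1]
  have h2 : GX U V i j = (U.map (C : K →+* MvPolynomial (Fin r' × Fin r') K) * Xm K r' *
      V.map (C : K →+* MvPolynomial (Fin r' × Fin r') K)) i j +
        C ((1 - U * V : Matrix (Fin r) (Fin r) K) i j) := by
    unfold GX GG
    rw [Matrix.add_apply]
    congr 1
    rw [Matrix.sub_apply, Matrix.sub_apply, map_sub, ← Matrix.map_mul, Matrix.map_apply]
    congr 1
    rw [← Matrix.map_apply (f := (C : K →+* MvPolynomial (Fin r' × Fin r') K)),
      Matrix.map_one _ (map_zero _) (map_one _)]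
  have h3 : (U.map (C : K →+* MvPolynomial (Fin r' × Fin r') K) * Xm K r').map (ldv M) =
      U.map (C : K →+* MvPolynomial (Fin r' × Fin r') K) *
        (Xm K r' * M.map (C : K →+* MvPolynomial (Fin r' × Fin r') K)) := by
    rw [← ldv_Xm]
    ext1 a b
    rw [Matrix.map_apply]
    exact D_const_mul (ldv M) _ (fun a b => ldv_C M _) _ a b
  have h4 := D_mul_const (ldv M)
    (U.map (C : K →+* MvPolynomial (Fin r' × Fin r') K) * Xm K r')
    (V.map (C : K →+* MvPolynomial (Fin r' × Fin r') K)) (fun a b => ldv_C M _) i j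
  rw [h2, map_add, ldv_C, add_zero, h4, h3]

/-- the equations -/
noncomputable def eqn (U : Matrix (Fin r) (Fin r') K) (V : Matrix (Fin r') (Fin r) K)
    (t : T r m n K) :
    Matrix (Fin m → Fin r) (Fin n → Fin r) (MvPolynomial (Fin r' × Fin r') K) :=
  pw m (GX U V) * t.map (C : K →+* MvPolynomial (Fin r' × Fin r') K) -
    t.map (C : K →+* MvPolynomial (Fin r' × Fin r') K) * pw n (GX U V)

theorem ldv_eqn {U : Matrix (Fin r) (Fin r') K} {V : Matrix (Fin r') (Fin r) K} (h : V * U = 1)
    (t : T r m n K) (M : Matrix (Fin r') (Fin r') K)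
    (ht : dr m (U * M * V) * t = t * dr n (U * M * V)) (i : Fin m → Fin r) (j : Fin n → Fin r) :
    ldv M (eqn U V t i j) = ∑ j', eqn U V t i j' * C (dr n (U * M * V) j' j) := by
  set φ : K →+* MvPolynomial (Fin r' × Fin r') K := C with hφ
  set N := (U * M * V).map φ with hN
  have h1 : (pw m (GX U V)).map (ldv M) = pw m (GX U V) * dr m N := by
    ext1 a b
    rw [Matrix.map_apply]
    exact D_pw (ldv M) _ _ (fun a b => ldv_GX h M a b) m a b
  have h2 : (pw n (GX U V)).map (ldv M) = pw n (GX U V) * dr n N := by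
    ext1 a b
    rw [Matrix.map_apply]
    exact D_pw (ldv M) _ _ (fun a b => ldv_GX h M a b) n a b
  have h3 : dr m N * t.map φ = t.map φ * dr n N := by
    rw [hN, ← dr_map, ← dr_map, ← Matrix.map_mul, ← Matrix.map_mul, ht]
  have h4 : ldv M (eqn U V t i j) = (eqn U V t * dr n N) i j := by
    unfold eqn
    have h5 := D_mul_const (ldv M) (pw m (GX U V)) (Matrix.map t φ) (fun a b => ldv_C M _) i j
    have h6 := D_const_mul (ldv M) (Matrix.map t φ) (fun a b => ldv_C M _) (pw n (GX U V)) i j
    rw [Matrix.sub_apply, map_sub, h5, h6, h1, h2, ← Matrix.sub_apply, Matrix.sub_mul,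
      Matrix.mul_assoc, h3, ← Matrix.mul_assoc, ← Matrix.mul_assoc]
  rw [h4, Matrix.mul_apply]
  refine Finset.sum_congr rfl fun j' _ => ?_
  rw [hN, ← dr_map, Matrix.map_apply]

theorem ev_eqn (U : Matrix (Fin r) (Fin r') K) (V : Matrix (Fin r') (Fin r) K)
    (t : T r m n K) (x : Matrix (Fin r') (Fin r') K) (i : Fin m → Fin r) (j : Fin n → Fin r) :
    ev x (eqn U V t i j) = (pw m (GG U V x) * t - t * pw n (GG U V x)) i j := by
  have hc : ∀ {ι κ : Type} (Z : Matrix ι κ K),
      (Z.map (C : K →+* MvPolynomial (Fin r' × Fin r') K)).map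
        ((ev x : MvPolynomial (Fin r' × Fin r') K →ₐ[K] K) :
          MvPolynomial (Fin r' × Fin r') K →+* K) = Z := by
    intro ι κ Z
    ext i j
    simp [ev]
  have hX : (Xm K r').map ((ev x : MvPolynomial (Fin r' × Fin r') K →ₐ[K] K) :
          MvPolynomial (Fin r' × Fin r') K →+* K) = x := by
    ext i j
    simp [ev, Xm]
  have hG : (GX U V).map ((ev x : MvPolynomial (Fin r' × Fin r') K →ₐ[K] K) :
          MvPolynomial (Fin r' × Fin r') K →+* K) = GG U V x := by
    unfold GX
    rw [GG_map, hc, hc, hX]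
  have h1 : (eqn U V t).map ((ev x : MvPolynomial (Fin r' × Fin r') K →ₐ[K] K) :
          MvPolynomial (Fin r' × Fin r') K →+* K) =
      pw m (GG U V x) * t - t * pw n (GG U V x) := by
    unfold eqn
    rw [Matrix.map_sub _ (map_sub _), Matrix.map_mul, Matrix.map_mul, pw_map, pw_map, hG, hc]
  rw [← h1]
  rfl

theorem fix_det1 [CharZero K] {ψ : Matrix (Fin r') (Fin r') K}
    {U : Matrix (Fin r) (Fin r') K} {V : Matrix (Fin r') (Fin r) K} {t : T r m n K}
    (hψ : ψ.det ≠ 0) (hs : ψᵀ = ψ ∨ ψᵀ = -ψ) (h : V * U = 1)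
    (hk : ∀ Y : Matrix (Fin r') (Fin r') K, Yᵀ * ψ + ψ * Y = 0 →
      dr m (U * Y * V) * t = t * dr n (U * Y * V))
    (g : GL (Fin r') K) (hg : (g : Matrix (Fin r') (Fin r') K)ᵀ * ψ *
        (g : Matrix (Fin r') (Fin r') K) = ψ)
    (hdet : (g : Matrix (Fin r') (Fin r') K).det = 1) :
    pw m (GG U V (g : Matrix (Fin r') (Fin r') K)) * t =
      t * pw n (GG U V (g : Matrix (Fin r') (Fin r') K)) := by
  have hu : IsUnit ψ.det := isUnit_iff_ne_zero.mpr hψ
  obtain ⟨ε, hε, hε2⟩ : ∃ ε : K, ε * ε = 1 ∧ ψ.transpose = ε • ψ := by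
    rcases hs with h | h
    · exact ⟨1, by ring, by rw [h, one_smul]⟩
    · exact ⟨-1, by ring, by rw [h, neg_one_smul]⟩
  let I : Set (MvPolynomial (Fin r' × Fin r') K) :=
    (Submodule.span K (Set.range fun ij : (Fin m → Fin r) × (Fin n → Fin r) =>
      eqn U V t ij.1 ij.2) : Submodule K (MvPolynomial (Fin r' × Fin r') K))
  have h1 : ∀ f ∈ I, ev (1 : Matrix (Fin r') (Fin r') K) f = 0 := by
    intro f hf
    induction hf using Submodule.span_induction with
    | mem x hx =>
      obtain ⟨ij, rfl⟩ := hx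
      rw [ev_eqn, GG_one, pw_one, pw_one, Matrix.one_mul, Matrix.mul_one, sub_self]
      rfl
    | zero => exact map_zero _
    | add x y _ _ hx hy => rw [map_add, hx, hy, add_zero]
    | smul c x _ hx =>
      rw [MvPolynomial.smul_eq_C_mul, map_mul, hx, mul_zero]
  have hL : ∀ M : Matrix (Fin r') (Fin r') K, M.transpose * ψ + ψ * M = 0 →
      ∀ f ∈ I, ldv M f ∈ I := by
    intro M hM f hf
    induction hf using Submodule.span_induction with
    | mem x hx =>
      obtain ⟨ij, rfl⟩ := hx
      change ldv M (eqn U V t ij.1 ij.2) ∈ I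
      rw [ldv_eqn h t M (hk M hM)]
      refine Submodule.sum_mem _ fun j' _ => ?_
      rw [mul_comm, ← smul_eq_C_mul]
      exact Submodule.smul_mem _ _ (Submodule.subset_span ⟨(ij.1, j'), rfl⟩)
    | zero =>
      rw [map_zero]
      exact Submodule.zero_mem _
    | add x y _ _ hx hy =>
      rw [map_add]
      exact Submodule.add_mem _ hx hy
    | smul c x _ hx =>
      rw [Derivation.map_smul]
      exact Submodule.smul_mem _ _ hx
  refine st_ISM K r' ψ
    {x | pw m (GG U V (x : Matrix (Fin r') (Fin r') K)) * t =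
      t * pw n (GG U V (x : Matrix (Fin r') (Fin r') K))} hψ hs.symm ?_ ?_ g hg hdet
  · intro x hx y hy
    rw [Set.mem_ofPred_eq] at hx hy ⊢
    have h2 : ((x * y : Matrix.GeneralLinearGroup (Fin r') K) : Matrix (Fin r') (Fin r') K) =
        (x : Matrix (Fin r') (Fin r') K) * (y : Matrix (Fin r') (Fin r') K) := rfl
    rw [h2, ← GG_mul h, pw_mul, pw_mul, Matrix.mul_assoc, hy, ← Matrix.mul_assoc, hx,
      Matrix.mul_assoc]
  · intro s hs' hs1
    rw [Set.mem_ofPred_eq]
    ext i j
    have hmap : ψ.map (algebraMap K K) = ψ := by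
      ext i j
      rfl
    have h3 := isometry_vanish (K₀ := K) (K := K) two_ne_zero ε hε ψ hu hε2 I h1 hL
      (s : Matrix (Fin r') (Fin r') K) (by rw [hmap]; exact hs') hs1 (eqn U V t i j)
      (Submodule.subset_span ⟨(i, j), rfl⟩)
    rw [ev_eqn, Matrix.sub_apply] at h3
    exact sub_eq_zero.mp h3

end det1

section refl

variable {K : Type} [Field K] {r m n r' : ℕ}

/-- an orthogonal basis -/
theorem orthK [CharZero K] (Q : Matrix (Fin r') (Fin r') K) (hQ : Qᵀ = Q) :
    ∃ (E : GL (Fin r') K) (d : Fin r' → K),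
      (E : Matrix (Fin r') (Fin r') K)ᵀ * Q * (E : Matrix (Fin r') (Fin r') K) = diagonal d := by
  have hsymm : LinearMap.IsSymm (Matrix.toBilin' Q) := ⟨fun x y => by
    rw [Matrix.toBilin'_apply, Matrix.toBilin'_apply, RingHom.id_apply, Finset.sum_comm]
    refine Finset.sum_congr rfl fun j _ => Finset.sum_congr rfl fun i _ => ?_
    have : Q i j = Q j i := congrFun (congrFun hQ.symm i) j
    rw [this]; ring⟩
  have hinv : Invertible (2 : K) := invertibleOfNonzero two_ne_zero
  obtain ⟨v0, hv0⟩ := LinearMap.BilinForm.exists_orthogonal_basis hsymm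
  have hfr : Module.finrank K (Fin r' → K) = r' := Module.finrank_fin_fun K
  let v : Module.Basis (Fin r') K (Fin r' → K) := v0.reindex (finCongr hfr)
  have hv : ∀ k l, k ≠ l → Matrix.toBilin' Q (v k) (v l) = 0 := by
    intro k l hkl
    have h1 := hv0 (i := (finCongr hfr).symm k) (j := (finCongr hfr).symm l)
      (fun h => hkl ((finCongr hfr).symm.injective h))
    simpa [v] using h1
  refine ⟨⟨(Pi.basisFun K (Fin r')).toMatrix v, v.toMatrix (Pi.basisFun K (Fin r')),
    Module.Basis.toMatrix_mul_toMatrix_flip _ _, Module.Basis.toMatrix_mul_toMatrix_flip _ _⟩,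
    fun k => Matrix.toBilin' Q (v k) (v k), ?_⟩
  ext k l
  have h1 : ((((Pi.basisFun K (Fin r')).toMatrix v)ᵀ * Q) *
      (Pi.basisFun K (Fin r')).toMatrix v) k l = Matrix.toBilin' Q (v k) (v l) := by
    rw [Matrix.toBilin'_apply, Matrix.mul_apply, Finset.sum_comm]
    refine Finset.sum_congr rfl fun j _ => ?_
    rw [Matrix.mul_apply, Finset.sum_mul]
    rfl
  show ((((Pi.basisFun K (Fin r')).toMatrix v)ᵀ * Q) *
    (Pi.basisFun K (Fin r')).toMatrix v) k l = _
  rw [h1]
  by_cases h : k = l
  · subst h; rw [diagonal_apply_eq]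
  · rw [diagonal_apply_ne _ h, hv k l h]

/-- the block map on the groups -/
def Gu {U : Matrix (Fin r) (Fin r') K} {V : Matrix (Fin r') (Fin r) K} (h : V * U = 1)
    (s : GL (Fin r') K) : GL (Fin r) K where
  val := GG U V (s : Matrix (Fin r') (Fin r') K)
  inv := GG U V ((s⁻¹ : GL (Fin r') K) : Matrix (Fin r') (Fin r') K)
  val_inv := by rw [GG_mul h, gl_mul_inv, GG_one]
  inv_val := by rw [GG_mul h, gl_inv_mul, GG_one]

theorem Gu_val {U : Matrix (Fin r) (Fin r') K} {V : Matrix (Fin r') (Fin r) K} (h : V * U = 1)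
    (s : GL (Fin r') K) : (Gu h s : Matrix (Fin r) (Fin r) K) =
      GG U V (s : Matrix (Fin r') (Fin r') K) := rfl

theorem Gu_mul {U : Matrix (Fin r) (Fin r') K} {V : Matrix (Fin r') (Fin r) K} (h : V * U = 1)
    (s s' : GL (Fin r') K) : Gu h (s * s') = Gu h s * Gu h s' := by
  apply Units.ext
  rw [Units.val_mul, Gu_val, Gu_val, Gu_val, GG_mul h, Units.val_mul]

theorem Gu_one {U : Matrix (Fin r) (Fin r') K} {V : Matrix (Fin r') (Fin r) K} (h : V * U = 1) :
    Gu h (1 : GL (Fin r') K) = 1 := by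
  apply Units.ext
  rw [Gu_val, Units.val_one, Units.val_one, GG_one]

theorem act_one' (t : T r m n K) :
    Pool.Agent.Helper82.AHS.act (1 : GL (Fin r) K) t = t := by
  unfold Pool.Agent.Helper82.AHS.act
  rw [inv_one, Units.val_one, pw_one, pw_one, Matrix.one_mul, Matrix.mul_one]

/-- the label of a block of coordinates -/
def lab (U : Matrix (Fin r) (Fin r') K) (V : Matrix (Fin r') (Fin r) K) (E : GL (Fin r') K) :
    Option (Fin r') → Matrix (Fin r) (Fin r) K
  | none => 1 - U * V
  | some k => U * ((E : Matrix (Fin r') (Fin r') K) * diagonal (Pi.single k 1) *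
      ((E⁻¹ : GL (Fin r') K) : Matrix (Fin r') (Fin r') K)) * V

theorem sum_lab (U : Matrix (Fin r) (Fin r') K) (V : Matrix (Fin r') (Fin r) K)
    (E : GL (Fin r') K) : ∑ o, lab U V E o = 1 := by
  rw [Fintype.sum_option]
  have h1 : ∑ k, lab U V E (some k) = U * ((E : Matrix (Fin r') (Fin r') K) *
      (∑ k, diagonal (Pi.single k 1)) *
      ((E⁻¹ : GL (Fin r') K) : Matrix (Fin r') (Fin r') K)) * V := by
    rw [Finset.mul_sum, Finset.sum_mul, Matrix.mul_sum, Matrix.sum_mul]
    rfl
  have h2 : (∑ k, diagonal (Pi.single k 1) : Matrix (Fin r') (Fin r') K) = 1 := by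
    ext i j
    rw [Matrix.sum_apply, Finset.sum_eq_single i]
    · by_cases h : i = j
      · subst h
        rw [diagonal_apply_eq, Pi.single_eq_same, one_apply_eq]
      · rw [diagonal_apply_ne _ h, one_apply_ne h]
    · intro k _ hk
      by_cases h : i = j
      · subst h
        rw [diagonal_apply_eq, Pi.single_eq_of_ne hk.symm]
      · rw [diagonal_apply_ne _ h]
    · intro h
      exact absurd (Finset.mem_univ i) h
  rw [h1, h2, Matrix.mul_one, gl_mul_inv, Matrix.mul_one]
  show (1 - U * V) + U * V = 1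
  rw [sub_add_cancel]

theorem pwf_lab (U : Matrix (Fin r) (Fin r') K) (V : Matrix (Fin r') (Fin r) K)
    (E : GL (Fin r') K) (m : ℕ) :
    ∑ I : Fin m → Option (Fin r'), pwf (fun a => lab U V E (I a)) = 1 := by
  have h1 : (1 : T r m m K) = pwf (fun _ : Fin m => ∑ o, lab U V E o) := by
    rw [sum_lab, pwf_one]
  rw [h1]
  ext i j
  rw [Matrix.sum_apply, pwf_apply]
  simp only [Matrix.sum_apply]
  rw [Finset.prod_univ_sum, Fintype.piFinset_univ]
  rfl

/-- the reflections -/
def Rk (E : GL (Fin r') K) (k : Fin r') : GL (Fin r') K := E * dk K k * E⁻¹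

theorem Rk_val (E : GL (Fin r') K) (k : Fin r') : (Rk E k : Matrix (Fin r') (Fin r') K) =
    (E : Matrix (Fin r') (Fin r') K) * diagonal (sv k) *
      ((E⁻¹ : GL (Fin r') K) : Matrix (Fin r') (Fin r') K) := rfl

theorem single_sv {k l : Fin r'} (h : l ≠ k) :
    (diagonal (Pi.single l 1) : Matrix (Fin r') (Fin r') K) * diagonal (sv k) =
      diagonal (Pi.single l 1) := by
  rw [diagonal_mul_diagonal]
  congr 1
  funext i
  by_cases hi : i = l
  · subst hi
    unfold sv
    rw [Function.update_of_ne h, mul_one]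
  · rw [Pi.single_eq_of_ne hi, zero_mul]

theorem sv_single {k l : Fin r'} (h : l ≠ k) :
    (diagonal (sv k) : Matrix (Fin r') (Fin r') K) * diagonal (Pi.single l 1) =
      diagonal (Pi.single l 1) := by
  rw [diagonal_mul_diagonal]
  congr 1
  funext i
  by_cases hi : i = l
  · subst hi
    unfold sv
    rw [Function.update_of_ne h, one_mul]
  · rw [Pi.single_eq_of_ne hi, mul_zero]

theorem lab_mul {U : Matrix (Fin r) (Fin r') K} {V : Matrix (Fin r') (Fin r) K} (h : V * U = 1)
    (E : GL (Fin r') K) (k : Fin r') (o : Option (Fin r')) (ho : o ≠ some k) :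
    lab U V E o * GG U V (Rk E k : Matrix (Fin r') (Fin r') K) = lab U V E o := by
  cases o with
  | none => exact c_mul_GG h _
  | some l =>
    have hl : l ≠ k := fun h' => ho (by rw [h'])
    show (U * ((E : Matrix (Fin r') (Fin r') K) * diagonal (Pi.single l 1) *
      ((E⁻¹ : GL (Fin r') K) : Matrix (Fin r') (Fin r') K)) * V) * _ = U * (_ * _ * _) * V
    rw [U_mul_GG h, Rk_val]
    congr 2
    calc (E : Matrix (Fin r') (Fin r') K) * diagonal (Pi.single l 1) *
          ((E⁻¹ : GL (Fin r') K) : Matrix (Fin r') (Fin r') K) *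
          ((E : Matrix (Fin r') (Fin r') K) * diagonal (sv k) *
            ((E⁻¹ : GL (Fin r') K) : Matrix (Fin r') (Fin r') K))
        = (E : Matrix (Fin r') (Fin r') K) * (diagonal (Pi.single l 1) *
          (((E⁻¹ : GL (Fin r') K) : Matrix (Fin r') (Fin r') K) *
            (E : Matrix (Fin r') (Fin r') K)) * diagonal (sv k)) *
            ((E⁻¹ : GL (Fin r') K) : Matrix (Fin r') (Fin r') K) := by
          simp only [Matrix.mul_assoc]
      _ = _ := by rw [gl_inv_mul, Matrix.mul_one, single_sv hl]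

theorem mul_lab {U : Matrix (Fin r) (Fin r') K} {V : Matrix (Fin r') (Fin r) K} (h : V * U = 1)
    (E : GL (Fin r') K) (k : Fin r') (o : Option (Fin r')) (ho : o ≠ some k) :
    GG U V (Rk E k : Matrix (Fin r') (Fin r') K) * lab U V E o = lab U V E o := by
  cases o with
  | none => exact GG_mul_c h _
  | some l =>
    have hl : l ≠ k := fun h' => ho (by rw [h'])
    show _ * (U * ((E : Matrix (Fin r') (Fin r') K) * diagonal (Pi.single l 1) *
      ((E⁻¹ : GL (Fin r') K) : Matrix (Fin r') (Fin r') K)) * V) = U * (_ * _ * _) * V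
    rw [GG_mul_U h, Rk_val]
    congr 2
    calc (E : Matrix (Fin r') (Fin r') K) * diagonal (sv k) *
            ((E⁻¹ : GL (Fin r') K) : Matrix (Fin r') (Fin r') K) *
          ((E : Matrix (Fin r') (Fin r') K) * diagonal (Pi.single l 1) *
          ((E⁻¹ : GL (Fin r') K) : Matrix (Fin r') (Fin r') K))
        = (E : Matrix (Fin r') (Fin r') K) * (diagonal (sv k) *
          (((E⁻¹ : GL (Fin r') K) : Matrix (Fin r') (Fin r') K) *
            (E : Matrix (Fin r') (Fin r') K)) * diagonal (Pi.single l 1)) *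
            ((E⁻¹ : GL (Fin r') K) : Matrix (Fin r') (Fin r') K) := by
          simp only [Matrix.mul_assoc]
      _ = _ := by rw [gl_inv_mul, Matrix.mul_one, sv_single hl]

/-- a tensor whose sign is changed by all reflections of the block vanishes -/
theorem odd_zero [CharZero K] {U : Matrix (Fin r) (Fin r') K} {V : Matrix (Fin r') (Fin r) K}
    (h : V * U = 1) (E : GL (Fin r') K) (u : T r m n K) (hmn : m + n < r')
    (hu : ∀ k, pw m (GG U V (Rk E k : Matrix (Fin r') (Fin r') K)) * u =
      -(u * pw n (GG U V (Rk E k : Matrix (Fin r') (Fin r') K)))) : u = 0 := by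
  have key : ∀ (I : Fin m → Option (Fin r')) (J : Fin n → Option (Fin r')),
      pwf (fun a => lab U V E (I a)) * u * pwf (fun a => lab U V E (J a)) = 0 := by
    intro I J
    obtain ⟨k, hk1, hk2⟩ : ∃ k : Fin r', (∀ a, I a ≠ some k) ∧ ∀ b, J b ≠ some k := by
      by_contra hcon
      push Not at hcon
      have hsur : Function.Surjective
          (fun x : Option (Fin m ⊕ Fin n) => x.elim none (Sum.elim I J)) := by
        intro o
        cases o with
        | none => exact ⟨none, rfl⟩
        | some k =>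
          by_cases hk : ∃ a, I a = some k
          · obtain ⟨a, ha⟩ := hk
            exact ⟨some (Sum.inl a), ha⟩
          · push Not at hk
            obtain ⟨b, hb⟩ := hcon k hk
            exact ⟨some (Sum.inr b), hb⟩
      have := Fintype.card_le_of_surjective _ hsur
      rw [Fintype.card_option, Fintype.card_option, Fintype.card_fin, Fintype.card_sum,
        Fintype.card_fin, Fintype.card_fin] at this
      omega
    have h1 : pwf (fun a => lab U V E (I a)) *
        pw m (GG U V (Rk E k : Matrix (Fin r') (Fin r') K)) = pwf (fun a => lab U V E (I a)) := by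
      unfold pw
      rw [pwf_mul]
      congr 1
      funext a
      exact lab_mul h E k _ (hk1 a)
    have h2 : pw n (GG U V (Rk E k : Matrix (Fin r') (Fin r') K)) *
        pwf (fun a => lab U V E (J a)) = pwf (fun a => lab U V E (J a)) := by
      unfold pw
      rw [pwf_mul]
      congr 1
      funext a
      exact mul_lab h E k _ (hk2 a)
    have h3 : pwf (fun a => lab U V E (I a)) * u * pwf (fun a => lab U V E (J a)) =
        -(pwf (fun a => lab U V E (I a)) * u * pwf (fun a => lab U V E (J a))) := by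
      calc pwf (fun a => lab U V E (I a)) * u * pwf (fun a => lab U V E (J a))
          = pwf (fun a => lab U V E (I a)) *
            (pw m (GG U V (Rk E k : Matrix (Fin r') (Fin r') K)) * u) *
              pwf (fun a => lab U V E (J a)) := by
            rw [← Matrix.mul_assoc, h1]
        _ = -(pwf (fun a => lab U V E (I a)) * (u *
            (pw n (GG U V (Rk E k : Matrix (Fin r') (Fin r') K)) *
              pwf (fun a => lab U V E (J a))))) := by
            rw [hu k, Matrix.mul_neg, Matrix.neg_mul]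
            simp only [Matrix.mul_assoc]
        _ = _ := by rw [h2, Matrix.mul_assoc]
    ext i j
    have h4 := congrFun (congrFun h3 i) j
    rw [Matrix.neg_apply] at h4
    rw [Matrix.zero_apply]
    have h5 : (2 : K) * (pwf (fun a => lab U V E (I a)) * u *
        pwf (fun a => lab U V E (J a))) i j = 0 := by
      linear_combination h4
    exact (mul_eq_zero.mp h5).resolve_left two_ne_zero
  calc u = (1 : T r m m K) * u * (1 : T r n n K) := by rw [Matrix.one_mul, Matrix.mul_one]
    _ = (∑ I : Fin m → Option (Fin r'), pwf (fun a => lab U V E (I a))) * u *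
        ∑ J : Fin n → Option (Fin r'), pwf (fun a => lab U V E (J a)) := by
        rw [pwf_lab, pwf_lab]
    _ = ∑ I : Fin m → Option (Fin r'), ∑ J : Fin n → Option (Fin r'),
        pwf (fun a => lab U V E (I a)) * u * pwf (fun a => lab U V E (J a)) := by
        rw [Matrix.sum_mul, Matrix.sum_mul]
        refine Finset.sum_congr rfl fun I _ => ?_
        rw [Matrix.mul_sum]
    _ = 0 := Finset.sum_eq_zero fun I _ => Finset.sum_eq_zero fun J _ => key I J

end refl

end H1B

open Matrix Pool.Agent.Helper82.AHS Pool.Agent.Helper21.TH.H72 H1B in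
theorem st_BTN : ST_BTN := by
  intro K _ _ r m n r' ψ U V t hψ hs h hk g hg hc
  show pw m (GG U V (g : Matrix (Fin r') (Fin r') K)) * t =
      t * pw n (GG U V (g : Matrix (Fin r') (Fin r') K))
  by_cases hdet : (g : Matrix (Fin r') (Fin r') K).det = 1
  · exact fix_det1 hψ hs h hk g hg hdet
  have hmn := hc.resolve_left hdet
  have hsym : ψᵀ = ψ := by
    rcases hs with h1 | h1
    · exact h1
    · exact absurd (det_alt hψ h1 hg) hdet
  have hdg : (g : Matrix (Fin r') (Fin r') K).det = -1 := (det_sq hψ hg).resolve_left hdet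
  obtain ⟨E, d, hE⟩ := orthK ψ hsym
  -- isometries
  let Iso : GL (Fin r') K → Prop := fun s =>
    (s : Matrix (Fin r') (Fin r') K)ᵀ * ψ * (s : Matrix (Fin r') (Fin r') K) = ψ
  have hIm : ∀ s s', Iso s → Iso s' → Iso (s * s') := by
    intro s s' h1 h2
    show ((s * s' : GL (Fin r') K) : Matrix (Fin r') (Fin r') K)ᵀ * ψ *
      ((s * s' : GL (Fin r') K) : Matrix (Fin r') (Fin r') K) = ψ
    rw [Units.val_mul, transpose_mul]
    calc (s' : Matrix (Fin r') (Fin r') K)ᵀ * (s : Matrix (Fin r') (Fin r') K)ᵀ * ψ *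
          ((s : Matrix (Fin r') (Fin r') K) * (s' : Matrix (Fin r') (Fin r') K))
        = (s' : Matrix (Fin r') (Fin r') K)ᵀ * ((s : Matrix (Fin r') (Fin r') K)ᵀ * ψ *
          (s : Matrix (Fin r') (Fin r') K)) * (s' : Matrix (Fin r') (Fin r') K) := by
          simp only [Matrix.mul_assoc]
      _ = ψ := by rw [h1]; exact h2
  have hEE : (E : Matrix (Fin r') (Fin r') K) *
      ((E⁻¹ : GL (Fin r') K) : Matrix (Fin r') (Fin r') K) = 1 := gl_mul_inv E
  have hEt : (((E⁻¹ : GL (Fin r') K) : Matrix (Fin r') (Fin r') K))ᵀ *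
      (E : Matrix (Fin r') (Fin r') K)ᵀ = 1 := by rw [← transpose_mul, hEE, transpose_one]
  have hR : ∀ k, Iso (Rk E k) := by
    intro k
    show (Rk E k : Matrix (Fin r') (Fin r') K)ᵀ * ψ * (Rk E k : Matrix (Fin r') (Fin r') K) = ψ
    rw [Rk_val, transpose_mul, transpose_mul, diagonal_transpose]
    have h1 : diagonal (sv k) * diagonal d * diagonal (sv k) = diagonal d := by
      rw [diagonal_mul_diagonal, diagonal_mul_diagonal]
      congr 1
      funext i
      have := sv_sq (K := K) k i
      linear_combination d i * this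
    calc (((E⁻¹ : GL (Fin r') K) : Matrix (Fin r') (Fin r') K))ᵀ *
          (diagonal (sv k) * (E : Matrix (Fin r') (Fin r') K)ᵀ) * ψ *
          ((E : Matrix (Fin r') (Fin r') K) * diagonal (sv k) *
            ((E⁻¹ : GL (Fin r') K) : Matrix (Fin r') (Fin r') K))
        = (((E⁻¹ : GL (Fin r') K) : Matrix (Fin r') (Fin r') K))ᵀ *
          (diagonal (sv k) * ((E : Matrix (Fin r') (Fin r') K)ᵀ * ψ *
            (E : Matrix (Fin r') (Fin r') K)) * diagonal (sv k)) *
            ((E⁻¹ : GL (Fin r') K) : Matrix (Fin r') (Fin r') K) := by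
          simp only [Matrix.mul_assoc]
      _ = (((E⁻¹ : GL (Fin r') K) : Matrix (Fin r') (Fin r') K))ᵀ *
          ((E : Matrix (Fin r') (Fin r') K)ᵀ * ψ * (E : Matrix (Fin r') (Fin r') K)) *
            ((E⁻¹ : GL (Fin r') K) : Matrix (Fin r') (Fin r') K) := by rw [hE, h1]
      _ = ((((E⁻¹ : GL (Fin r') K) : Matrix (Fin r') (Fin r') K))ᵀ *
          (E : Matrix (Fin r') (Fin r') K)ᵀ) * ψ * ((E : Matrix (Fin r') (Fin r') K) *
            ((E⁻¹ : GL (Fin r') K) : Matrix (Fin r') (Fin r') K)) := by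
          simp only [Matrix.mul_assoc]
      _ = ψ := by rw [hEt, hEE, Matrix.one_mul, Matrix.mul_one]
  have hRdet : ∀ k, (Rk E k : Matrix (Fin r') (Fin r') K).det = -1 := by
    intro k
    have h1 : (E : Matrix (Fin r') (Fin r') K).det *
        ((E⁻¹ : GL (Fin r') K) : Matrix (Fin r') (Fin r') K).det = 1 := by
      rw [← det_mul, hEE, Matrix.det_one]
    have h2 := dk_det (K := K) k
    rw [dk_val] at h2
    rw [Rk_val, det_mul, det_mul, h2]
    linear_combination -h1
  have hRR : ∀ k, Rk E k * Rk E k = 1 := by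
    intro k
    show E * dk K k * E⁻¹ * (E * dk K k * E⁻¹) = 1
    have h6 : dk K k * dk K k = 1 := by
      apply Units.ext
      rw [Units.val_mul, dk_val, Units.val_one, diagonal_mul_diagonal]
      simp only [sv_sq]
      exact diagonal_one
    calc E * dk K k * E⁻¹ * (E * dk K k * E⁻¹) = E * (dk K k * dk K k) * E⁻¹ := by
          group
      _ = 1 := by rw [h6]; group
  -- the action
  have hfix : ∀ s, Iso s → (s : Matrix (Fin r') (Fin r') K).det = 1 → act (Gu h s) t = t := by
    intro s h1 h2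
    exact (Pool.Agent.Helper84.D2.act_iff (Gu h s) t).mpr (fix_det1 hψ hs h hk s h1 h2)
  have hr : 0 < r' := by omega
  let k0 : Fin r' := ⟨0, hr⟩
  set t' : T r m n K := act (Gu h (Rk E k0)) t with ht'
  have hRt : ∀ k, act (Gu h (Rk E k)) t = t' := by
    intro k
    have h1 : Rk E k = Rk E k0 * (Rk E k0 * Rk E k) := by
      rw [← mul_assoc, hRR, one_mul]
    rw [h1, Gu_mul, act_mul, hfix (Rk E k0 * Rk E k) (hIm _ _ (hR k0) (hR k)) (by
      rw [Units.val_mul, det_mul, hRdet, hRdet]; ring)]
  have hRt' : ∀ k, act (Gu h (Rk E k)) t' = t := by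
    intro k
    rw [← hRt k, ← act_mul, ← Gu_mul, hRR, Gu_one, act_one']
  have hu : t - t' = 0 := by
    refine odd_zero h E _ hmn fun k => ?_
    have h1 : act (Gu h (Rk E k)) (t - t') = -(t - t') := by
      rw [act_sub, hRt, hRt', neg_sub]
    have h2 : pw m (GG U V (Rk E k : Matrix (Fin r') (Fin r') K)) * (t - t') =
        act (Gu h (Rk E k)) (t - t') * pw n (GG U V (Rk E k : Matrix (Fin r') (Fin r') K)) := by
      unfold act
      rw [Gu_val, Matrix.mul_assoc (pw m _ * _)]
      have h3 : pw n ((((Gu h (Rk E k))⁻¹ : GL (Fin r) K) : Matrix (Fin r) (Fin r) K)) *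
          pw n (GG U V (Rk E k : Matrix (Fin r') (Fin r') K)) = 1 := by
        have h4 := gl_inv_mul (Gu h (Rk E k))
        rw [Gu_val] at h4
        rw [← pw_mul, h4, pw_one]
      rw [h3, Matrix.mul_one]
    rw [h2, h1, Matrix.neg_mul]
  have htt : t' = t := (sub_eq_zero.mp hu).symm
  have h9 : act (Gu h g) t = t := by
    have h1 : g = g * Rk E k0 * Rk E k0 := by rw [mul_assoc, hRR, mul_one]
    rw [h1, Gu_mul, act_mul, hRt k0, htt]
    exact hfix _ (hIm _ _ hg (hR k0)) (by
      rw [Units.val_mul, det_mul, hRdet, hdg]; ring)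
  exact (Pool.Agent.Helper84.D2.act_iff (Gu h g) t).mp h9

end EH
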