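import Pool.Agent.Helper21.EM.Stmts3
import Pool.Agent.Helper8.MT.StA

/-!
# Project EM, row MTX: matrices as tensors in `T^(1,1)`
-/

set_option autoImplicit false

open NumberField MU MT MR HD

namespace EM

namespace H1

/-- the index set of `T^(1,0)` -/
def e1 (n : ℕ) : (Fin 1 → Fin n) ≃ Fin n := Equiv.funUnique (Fin 1) (Fin n)

theorem of_mtx {K : Type} {n : ℕ} (X : Matrix (Fin n) (Fin n) K) :
    (Matrix.of (mtx X) : Matrix (Fin 1 → Fin n) (Fin 1 → Fin n) K) =
      X.submatrix (e1 n) (e1 n) := rfl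

theorem dtp_one_eq {K : Type} [Field K] {n : ℕ} (A : Matrix (Fin n) (Fin n) K) :
    dtp 1 A = A.submatrix (e1 n) (e1 n) := by
  ext i j
  unfold dtp
  rw [Matrix.sum_apply, Fin.sum_univ_one, tpf_update]
  have h1 : (Finset.univ \ {(0 : Fin 1)} : Finset (Fin 1)) = ∅ := by decide
  rw [h1, Finset.prod_empty, mul_one]
  rfl

theorem tp_one_eq {K : Type} [Field K] {n : ℕ} (A : Matrix (Fin n) (Fin n) K) :
    MT.tp 1 A = A.submatrix (e1 n) (e1 n) := by
  ext i j
  unfold MT.tp
  rw [Fin.prod_univ_one]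
  rfl

theorem sub_mul_iff {K : Type} [Field K] {n : ℕ} (A B C D : Matrix (Fin n) (Fin n) K) :
    A.submatrix (e1 n) (e1 n) * B.submatrix (e1 n) (e1 n) =
      C.submatrix (e1 n) (e1 n) * D.submatrix (e1 n) (e1 n) ↔ A * B = C * D := by
  rw [Matrix.submatrix_mul_equiv, Matrix.submatrix_mul_equiv]
  constructor
  · intro h
    ext i j
    have h1 := congrFun (congrFun h ((e1 n).symm i)) ((e1 n).symm j)
    simpa only [Matrix.submatrix_apply, Equiv.apply_symm_apply] using h1
  · intro h
    rw [h]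

end H1

open H1 in
theorem st_MTX : ST_MTX := by
  refine ⟨?_, ?_, ?_, ?_⟩
  · intro K _ n X A
    unfold Kill
    rw [of_mtx, dtp_one_eq]
    exact sub_mul_iff A X X A
  · intro K _ n X g
    rw [act_fix_iff, of_mtx, tp_one_eq]
    exact sub_mul_iff _ _ _ _
  · intro K _ _ n X
    funext i j
    unfold Tensor.base mtx
    rw [Matrix.map_apply, eq_ratCast]
  · intro K _ n t
    refine ⟨Matrix.of fun i j => t (fun _ => i) (fun _ => j), ?_⟩
    funext i j
    unfold mtx
    rw [Matrix.of_apply]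
    have h1 : ∀ i : Fin 1 → Fin n, (fun _ : Fin 1 => i 0) = i := by
      intro i
      funext s
      rw [Subsingleton.elim s 0]
    rw [h1, h1]

end EM
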